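import Mathlib
import Pool.Agent.H26.Nik

/-! A Borel, non-`F_σδ` filter `F` on `ℕ` whose algebra `A_F` has the Nikodym property. -/

namespace Pool.Agent.Results.MP_07734d_lc.BorelNikodym

open Set

/-- `F` is free: it contains every cofinite set and no finite set. -/
def IsFree (F : Filter ℕ) : Prop :=
  (∀ A : Set ℕ, Aᶜ.Finite → A ∈ F) ∧ ∀ A : Set ℕ, A.Finite → A ∉ F

/-- `F` as a subset of the Cantor space, via characteristic functions. -/
def code (F : Filter ℕ) : Set (ℕ → Bool) := {x | {n | x n = true} ∈ F}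

/-- `F_σδ` subsets of the Cantor space. -/
def IsFsigmaDelta (X : Set (ℕ → Bool)) : Prop :=
  ∃ C : ℕ → ℕ → Set (ℕ → Bool), (∀ i j, IsClosed (C i j)) ∧ X = ⋂ i, ⋃ j, C i j

/-- The algebra `A_F = F ∪ F*`. -/
def alg (F : Filter ℕ) : Set (Set ℕ) := {A | A ∈ F ∨ Aᶜ ∈ F}

/-- The total variation of `μ` on the algebra `𝒜` is at most `C`. -/
def VarLe (𝒜 : Set (Set ℕ)) (μ : Set ℕ → ℝ) (C : ℝ) : Prop :=
  ∀ s : Finset (Set ℕ), (∀ A ∈ s, A ∈ 𝒜) → (∀ A ∈ s, ∀ B ∈ s, A ≠ B → Disjoint A B) →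
    ∑ A ∈ s, |μ A| ≤ C

/-- A measure on `𝒜`: finitely additive on `𝒜`, of bounded total variation (values of `μ` outside
`𝒜` play no role). -/
def IsMeasure (𝒜 : Set (Set ℕ)) (μ : Set ℕ → ℝ) : Prop :=
  (∀ A ∈ 𝒜, ∀ B ∈ 𝒜, Disjoint A B → μ (A ∪ B) = μ A + μ B) ∧ ∃ C, VarLe 𝒜 μ C

/-- The Nikodym property: pointwise bounded sequences of measures are norm bounded. -/
def Nikodym (𝒜 : Set (Set ℕ)) : Prop :=
  ∀ μ : ℕ → Set ℕ → ℝ, (∀ n, IsMeasure 𝒜 (μ n)) → (∀ A ∈ 𝒜, ∃ C, ∀ n, |μ n A| ≤ C) →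
    ∃ C, ∀ n, VarLe 𝒜 (μ n) C

open Pool.Agent.H26.Nik

theorem result : ∃ F : Filter ℕ, IsFree F ∧
    @MeasurableSet (ℕ → Bool) (borel (ℕ → Bool)) (code F) ∧ ¬ IsFsigmaDelta (code F) ∧
      Nikodym (alg F) := by
  let F : Filter ℕ :=
    { sets := {A | Aᶜ ∈ I}
      univ_sets := by simpa using I_fin finite_empty
      sets_of_superset := fun hA h => I_sub hA (compl_subset_compl.2 h)
      inter_sets := fun hA hB => by
        simp only [mem_setOf_eq, compl_inter] at hA hB ⊢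
        exact I_union _ hA _ hB }
  have hF : ∀ A, A ∈ F ↔ Aᶜ ∈ I := fun A => Iff.rfl
  have hcode : code F = {x : ℕ → Bool | {n | x n = false} ∈ I} := by
    ext x
    simp only [code, mem_setOf_eq, hF]
    rw [show {n | x n = true}ᶜ = {n | x n = false} by ext n; simp]
  have halg : ∀ A, A ∈ alg F ↔ Aᶜ ∈ I ∨ A ∈ I := fun A => by
    simp only [alg, mem_setOf_eq, hF, compl_compl]
  refine ⟨F, ⟨fun A hA => I_fin hA, fun A hA h => univ_not ?_⟩, ?_, ?_, ?_⟩
  · rw [← union_compl_self A]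
    exact I_union _ (I_fin hA) _ h
  · rw [hcode, ← BorelSpace.measurable_eq]
    exact meas
  · rintro ⟨C, hC, he⟩
    exact not_fsd C hC (hcode ▸ he)
  · intro μ hμ hp
    have hI : ∀ A ∈ I, A ∈ alg F := fun A hA => (halg A).2 (Or.inr hA)
    obtain ⟨C, hC⟩ := nik_I μ (fun n A hA B hB => (hμ n).1 A (hI A hA) B (hI B hB))
      (fun n => (hμ n).2.imp (fun C h A hA => by simpa using h {A} (by simpa using hI A hA) (by simp)))
      (fun A hA => hp A (hI A hA))
    obtain ⟨D, hD⟩ := hp univ ((halg _).2 (Or.inl (by simpa using I_fin finite_empty)))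
    refine ⟨2 * (C + D), fun n s h1 h2 => var_le (R := alg F) (hI _ (I_fin finite_empty)) ?_
      (hμ n).1 ?_ id s h1 h2⟩
    · intro A hA B hB
      rw [halg] at hA hB ⊢
      rcases hA with hA | hA
      · exact Or.inl (I_sub hA (compl_subset_compl.2 subset_union_left))
      rcases hB with hB | hB
      · exact Or.inl (I_sub hB (compl_subset_compl.2 subset_union_right))
      · exact Or.inr (I_union _ hA _ hB)
    · intro A hA
      have hD0 := (abs_nonneg _).trans (hD n)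
      rcases (halg A).1 hA with h | h
      · have h3 := (hμ n).1 A hA Aᶜ (hI _ h) disjoint_compl_right
        rw [union_compl_self] at h3
        have h4 : μ n A = μ n univ - μ n Aᶜ := by linarith
        rw [h4]
        linarith [abs_sub (μ n univ) (μ n Aᶜ), hD n, hC n _ h]
      · linarith [hC n A h]

end Pool.Agent.Results.MP_07734d_lc.BorelNikodym
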